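import Pool.Agent.W811.LW.Stm

set_option autoImplicit false
open Finset Filter Topology
open scoped ENNReal

namespace Pool.Agent.W555.LW

open Pool.Agent.W811.LW

theorem et_nonneg' (G : ℕ) (i : ℤ) : 0 ≤ et G i := by
  unfold et
  split_ifs <;> positivity

theorem rs_nonneg' (y : ℝ) : 0 ≤ rs y := by
  unfold rs
  positivity

theorem rs_bound (D y z : ℝ) (hD : 1 ≤ D) (hy : 0 < y) (hz : 0 < z) (h : y ≤ 2 * D ^ 2 * z) :
    rs z ≤ 2 * D * rs y := by
  unfold rs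
  have h1 : 0 < Real.sqrt y := Real.sqrt_pos.2 hy
  have h2 : 0 < Real.sqrt z := Real.sqrt_pos.2 hz
  rw [inv_eq_one_div, inv_eq_one_div, mul_one_div, div_le_div_iff₀ h2 h1, one_mul]
  have h3 : Real.sqrt y ≤ Real.sqrt ((2 * D * Real.sqrt z) ^ 2) := by
    apply Real.sqrt_le_sqrt
    rw [mul_pow, Real.sq_sqrt hz.le]
    nlinarith [mul_pos (pow_pos (by linarith : (0 : ℝ) < D) 2) hz]
  rw [Real.sqrt_sq (by positivity)] at h3
  exact h3

theorem sw1 (h : CLW1) (hp : POS) (hd : DWL) (hk : KERN) : SW1 := by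
  intro G c0 hG hc0 hc1
  have hGr : (1000 : ℝ) ≤ (G : ℝ) := by exact_mod_cast hG
  have hD2 : 2 ≤ G ^ 4 := by
    calc 2 ≤ 1000 ^ 4 := by norm_num
      _ ≤ G ^ 4 := Nat.pow_le_pow_left hG 4
  obtain ⟨D, hD⟩ : ∃ D : ℝ, D = (G : ℝ) ^ 4 := ⟨_, rfl⟩
  have hDG : ((G ^ 4 : ℕ) : ℝ) = D := by
    rw [hD]
    push_cast
    ring
  have hD1 : (1 : ℝ) ≤ D := by
    rw [hD]
    exact one_le_pow₀ (by linarith)
  have hD0 : (0 : ℝ) < D := by linarith
  have hD10 : (1 : ℝ) ≤ D ^ 10 := one_le_pow₀ hD1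
  have hD4 : (1 : ℝ) ≤ D ^ 4 := one_le_pow₀ hD1
  obtain ⟨M, hM0, hM⟩ := hk G (c0 / (1024 * D ^ 10)) (128 * D ^ 10) (16 * D ^ 4) (2 * D) hG
    (by positivity) (by linarith) (by linarith) (by linarith)
  refine ⟨M, hM0, ?_⟩
  intro α β j t hα hβ
  rw [← hD] at hβ hM
  rw [← hD]
  have hpos := fun (j t : ℕ) (β : ℝ) (m : ℕ) => hp (G ^ 4) α c0 β j t m hD2 hc0 hα
  rw [hDG] at hpos
  obtain ⟨T, hT⟩ : ∃ T : ℕ → ℝ, T = fun m : ℕ => (1 / D ^ 2) * ∑ d ∈ range ((G ^ 4) ^ 2),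
      et G ((j : ℤ) - (m : ℤ)) *
        rs (yW D α j (t + 1) (β + (d : ℝ) / D ^ (2 * (j + t) + 2)) m) := ⟨_, rfl⟩
  have halt : ∀ m, T m ≤ (1 / 48) * (et G ((j : ℤ) - (m : ℤ)) * rs (yW D α j t β m)) ∨
    (T m ≤ (2 * D) * (et G ((j : ℤ) - (m : ℤ)) * rs (yW D α j t β m)) ∧
      (c0 / (1024 * D ^ 10) ≤ D ^ (-2 * ((j : ℤ) - (m : ℤ))) * (yW D α j t β m) ^ 2 ∨
        ∃ m' : ℕ, D ^ (-2 * ((m' : ℤ) - (j : ℤ))) ≤ (128 * D ^ 10) * (yW D α j t β m) ^ 2 ∧
          yV D α j t β m' ≤ (16 * D ^ 4) * D ^ (-2 * ((j : ℤ) - (m : ℤ))) *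
            yW D α j t β m)) := by
    intro m
    have hz1 : ∀ a b : ℕ, D ^ (-2 * ((a : ℤ) - (b : ℤ))) = D ^ (2 * b) / D ^ (2 * a) := by
      intro a b
      have : (-2 * ((a : ℤ) - (b : ℤ))) = ((2 * b : ℕ) : ℤ) - ((2 * a : ℕ) : ℤ) := by
        push_cast
        ring
      rw [this, zpow_sub₀ hD0.ne', zpow_natCast, zpow_natCast]
    obtain ⟨h1, h2⟩ := h (G ^ 4) c0 α β j t m hD2 hc0 hα
    rw [hDG] at h1 h2
    have hy : 0 < yW D α j t β m := (hpos j t β m).2.2.2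
    have het := et_nonneg' G ((j : ℤ) - (m : ℤ))
    have hrs := rs_nonneg' (yW D α j t β m)
    have hcard : (((G ^ 4) ^ 2 : ℕ) : ℝ) = D ^ 2 := by
      rw [← hDG]
      push_cast
      ring
    rcases h2 with h2 | ⟨v, hv, w, hw, hcr, hv1, hw1⟩
    · left
      rw [hT]
      simp only
      rw [← Finset.mul_sum]
      have h3 : rs D ≤ 1 / 1000000 := by
        unfold rs
        have h4 : Real.sqrt D = (G : ℝ) ^ 2 := by
          rw [hD, show (G : ℝ) ^ 4 = ((G : ℝ) ^ 2) ^ 2 by ring]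
          exact Real.sqrt_sq (by positivity)
        rw [h4, inv_eq_one_div]
        apply one_div_le_one_div_of_le (by norm_num)
        nlinarith
      have h5 : (1 / D ^ 2) * (et G ((j : ℤ) - (m : ℤ)) * ∑ d ∈ range ((G ^ 4) ^ 2),
          rs (yW D α j (t + 1) (β + (d : ℝ) / D ^ (2 * (j + t) + 2)) m)) ≤
          (1 / D ^ 2) * (et G ((j : ℤ) - (m : ℤ)) *
            (D ^ 2 * (16 * rs D * rs (yW D α j t β m)))) := by
        apply mul_le_mul_of_nonneg_left _ (by positivity)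
        exact mul_le_mul_of_nonneg_left h2 het
      have h6 : (1 / D ^ 2) * (et G ((j : ℤ) - (m : ℤ)) *
            (D ^ 2 * (16 * rs D * rs (yW D α j t β m)))) =
          (16 * rs D) * (et G ((j : ℤ) - (m : ℤ)) * rs (yW D α j t β m)) := by
        field_simp
      rw [h6] at h5
      refine h5.trans ?_
      apply mul_le_mul_of_nonneg_right _ (mul_nonneg het hrs)
      linarith
    · right
      constructor
      · rw [hT]
        simp only
        have h3 : ∑ d ∈ range ((G ^ 4) ^ 2), et G ((j : ℤ) - (m : ℤ)) *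
            rs (yW D α j (t + 1) (β + (d : ℝ) / D ^ (2 * (j + t) + 2)) m) ≤
            ∑ d ∈ range ((G ^ 4) ^ 2), et G ((j : ℤ) - (m : ℤ)) *
              (2 * D * rs (yW D α j t β m)) := by
          apply Finset.sum_le_sum
          intro d hd'
          apply mul_le_mul_of_nonneg_left _ het
          obtain ⟨h4, h5⟩ := h1 d (Finset.mem_range.1 hd')
          exact rs_bound D _ _ hD1 hy h4 h5
        rw [Finset.sum_const, Finset.card_range, nsmul_eq_mul, hcard] at h3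
        have h4 : (1 / D ^ 2) * ∑ d ∈ range ((G ^ 4) ^ 2), et G ((j : ℤ) - (m : ℤ)) *
            rs (yW D α j (t + 1) (β + (d : ℝ) / D ^ (2 * (j + t) + 2)) m) ≤
            (1 / D ^ 2) * (D ^ 2 * (et G ((j : ℤ) - (m : ℤ)) *
              (2 * D * rs (yW D α j t β m)))) :=
          mul_le_mul_of_nonneg_left h3 (by positivity)
        refine h4.trans (le_of_eq ?_)
        field_simp
      · have h3 := hd (G ^ 4) c0 α β j t m (yW D α j t β m) v w hD2 hc0 hc1 hy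
        rw [hDG] at h3
        have h4 := h3 hv hw hcr hv1 hw1
        rw [hz1 j m]
        rcases h4 with h4 | ⟨m', h5, h6⟩
        · exact Or.inl h4
        · refine Or.inr ⟨m', ?_, ?_⟩
          · rw [hz1 m' j]
            exact h5
          · exact h6
  have hK := hM (fun m => (j : ℤ) - (m : ℤ)) (fun m => (m : ℤ) - (j : ℤ))
    (fun m => yW D α j t β m) (fun m => yV D α j t β m) T
    (fun a b hab => by
      simp only at hab
      omega)
    (fun m => (hpos j t β m).2.2.2) (fun m => (hpos j t β m).2.2.1) halt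
  have hL : ∑ d ∈ range ((G ^ 4) ^ 2),
      FW G α j (t + 1) (β + (d : ℝ) / D ^ (2 * (j + t) + 2)) =
      (((G ^ 4) ^ 2 : ℕ) : ℝ≥0∞) * ∑' m, ENNReal.ofReal (T m) := by
    unfold FW
    rw [← hD, ← Summable.tsum_finsetSum (fun _ _ => ENNReal.summable), ← ENNReal.tsum_mul_left]
    congr 1
    funext m
    rw [← ENNReal.ofReal_sum_of_nonneg
      (fun d _ => mul_nonneg (et_nonneg' _ _) (rs_nonneg' _)), hT,
      ← ENNReal.ofReal_natCast, ← ENNReal.ofReal_mul (Nat.cast_nonneg _)]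
    congr 1
    have hcard : (((G ^ 4) ^ 2 : ℕ) : ℝ) = D ^ 2 := by
      rw [← hDG]
      push_cast
      ring
    rw [hcard]
    simp only
    rw [← mul_assoc, mul_one_div_cancel (by positivity), one_mul]
  rw [hL]
  apply mul_le_mul_right
  have hFW : FW G α j t β = ∑' m : ℕ, ENNReal.ofReal (et G ((j : ℤ) - (m : ℤ)) *
      rs (yW D α j t β m)) := by
    unfold FW
    rw [← hD]
  have hFV : FV G α j t β = ∑' m : ℕ, ENNReal.ofReal (et G ((m : ℤ) - (j : ℤ)) *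
      rs (yV D α j t β m)) := by
    unfold FV
    rw [← hD]
  rw [hFW, hFV]
  refine hK.trans (le_of_eq ?_)
  ring

end Pool.Agent.W555.LW
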